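import Pool.Agent.W192.CM.Parts

/-! # CM-DUALP: the dual part -/

set_option autoImplicit false

open Complex Filter Topology Set

namespace Pool.Agent.W822.CM.Dualp

open Pool.Agent.W192.CM Pool.Agent.W192.CY

/-! ## summability over `R` -/

theorem summ {R : Subring ℂ} {ω : ℂ} (hR : CMRing R ω) {k : ℝ} (hk : 2 < k) :
    Summable (fun α : R => ‖(α : ℂ)‖ ^ (-k)) := by
  have h1 : Summable (fun x : Fin 2 → ℤ =>
      (EisensteinSeries.r ⟨ω, hR.im⟩) ^ (-k) * ‖x‖ ^ (-k)) :=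
    (EisensteinSeries.summable_one_div_norm_rpow hk).mul_left _
  have h2 : Summable (fun x : Fin 2 → ℤ => ‖(x 0 : ℂ) * ω + (x 1 : ℂ)‖ ^ (-k)) := by
    refine Summable.of_nonneg_of_le (fun x => Real.rpow_nonneg (norm_nonneg _) _) (fun x => ?_) h1
    exact EisensteinSeries.summand_bound ⟨ω, hR.im⟩ (by linarith) x
  have h3 : ∀ α : R, ∃ x : Fin 2 → ℤ, (α : ℂ) = (x 0 : ℂ) * ω + (x 1 : ℂ) := by
    intro α
    obtain ⟨a, b, hab⟩ := (hR.mem (α : ℂ)).1 α.2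
    refine ⟨![b, a], ?_⟩
    rw [hab]
    simp only [Matrix.cons_val_zero, Matrix.cons_val_one, Matrix.cons_val_fin_one]
    ring
  choose s hs using h3
  have hinj : Function.Injective s := by
    intro α β h
    apply Subtype.ext
    rw [hs α, hs β, h]
  have h4 := h2.comp_injective hinj
  refine h4.congr fun α => ?_
  simp only [Function.comp]
  rw [← hs α]

/-! ## characters -/

variable {R : Subring ℂ} {κ : R}

theorem chi_norm_unit [Finite (Aq R κ)] (χ : MulChar (Aq R κ) ℂ) (y : (Aq R κ)ˣ) :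
    ‖χ (y : Aq R κ)‖ = 1 := by
  have h1 : (χ (y : Aq R κ)) ^ (Nat.card (Aq R κ)ˣ) = 1 := by
    rw [← map_pow, ← Units.val_pow_eq_pow_val, pow_card_eq_one', Units.val_one, map_one]
  exact Complex.norm_eq_one_of_pow_eq_one h1 Nat.card_pos.ne'

theorem chi_norm [Finite (Aq R κ)] (χ : MulChar (Aq R κ) ℂ) (x : Aq R κ) : ‖χ x‖ ≤ 1 := by
  by_cases hx : IsUnit x
  · obtain ⟨y, rfl⟩ := hx
    exact (chi_norm_unit χ y).le
  · rw [MulChar.map_nonunit χ hx, norm_zero]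
    exact zero_le_one

theorem ev_norm [Finite (Aq R κ)] (χ : MulChar (Aq R κ) ℂ) (α : R) : ‖ev χ α‖ ≤ 1 :=
  chi_norm χ _

theorem conj_unit [Finite (Aq R κ)] (χ : MulChar (Aq R κ) ℂ) (y : (Aq R κ)ˣ) :
    (starRingEnd ℂ) (χ (y : Aq R κ)) = χ ((y⁻¹ : (Aq R κ)ˣ) : Aq R κ) := by
  have h1 := chi_norm_unit χ y
  have h2 : χ (y : Aq R κ) * χ ((y⁻¹ : (Aq R κ)ˣ) : Aq R κ) = 1 := by
    rw [← map_mul, ← Units.val_mul, mul_inv_cancel, Units.val_one, map_one]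
  have h3 : χ (y : Aq R κ) * (starRingEnd ℂ) (χ (y : Aq R κ)) = 1 := by
    rw [Complex.mul_conj, Complex.normSq_eq_norm_sq, h1]
    norm_num
  have h4 : χ (y : Aq R κ) ≠ 0 := by
    intro h; rw [h, norm_zero] at h1; exact zero_ne_one h1
  exact mul_left_cancel₀ h4 (h3.trans h2.symm)

theorem ez_norm (ω z : ℂ) : ‖ez ω z‖ = 1 := by
  rw [ez, Complex.norm_exp]
  have : (2 * (Real.pi : ℂ) * Complex.I * ((z.im / ω.im : ℝ) : ℂ)).re = 0 := by
    have e : (2 * (Real.pi : ℂ) * Complex.I * ((z.im / ω.im : ℝ) : ℂ)) =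
        ((2 * Real.pi * (z.im / ω.im) : ℝ) : ℂ) * Complex.I := by
      push_cast; ring
    rw [e]
    simp
  rw [this, Real.exp_zero]

/-! ## the key bound -/

theorem key (h3 : C_MOB) (h4 : C_GAVG) (ω : ℂ) [Finite (Aq R κ)] (χ₀ : MulChar (Aq R κ) ℂ)
    (M : ℕ) (hM : 1 ≤ M) (hMd : M ∣ orderOf χ₀) (φ β α : R) :
    ‖∑ χ ∈ Ef χ₀ M, ev χ β * ((starRingEnd ℂ) (ev χ α) * (ev χ φ * gs ω κ χ / (‖(κ : ℂ)‖ : ℂ)))‖ ≤
      (orderOf χ₀).divisors.card * (Nat.card (Aq R κ)ˣ : ℝ) / ‖(κ : ℂ)‖ := by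
  have hnn : (0 : ℝ) ≤ (orderOf χ₀).divisors.card * (Nat.card (Aq R κ)ˣ : ℝ) / ‖(κ : ℂ)‖ := by
    positivity
  by_cases hu : IsUnit (Ideal.Quotient.mk (Ideal.span {κ}) β : Aq R κ) ∧
      IsUnit (Ideal.Quotient.mk (Ideal.span {κ}) φ : Aq R κ) ∧
      IsUnit (Ideal.Quotient.mk (Ideal.span {κ}) α : Aq R κ)
  · obtain ⟨⟨ub, hub⟩, ⟨uN, huN⟩, ⟨un, hun⟩⟩ := hu
    set y : (Aq R κ)ˣ := ub * uN * un⁻¹ with hy
    have e1 : ∀ χ : MulChar (Aq R κ) ℂ, ev χ β * ((starRingEnd ℂ) (ev χ α) *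
        (ev χ φ * gs ω κ χ / (‖(κ : ℂ)‖ : ℂ))) =
        (χ (y : Aq R κ) * gs ω κ χ) * (‖(κ : ℂ)‖ : ℂ)⁻¹ := by
      intro χ
      unfold ev
      rw [← hub, ← huN, ← hun, conj_unit, hy, Units.val_mul, Units.val_mul, map_mul, map_mul]
      ring
    rw [Finset.sum_congr rfl fun χ _ => e1 χ, ← Finset.sum_mul, norm_mul, norm_inv,
      Complex.norm_real, norm_norm]
    obtain ⟨t, -, ht⟩ := h3 (Aq R κ) χ₀ M hM hMd
    rw [ht (fun χ => χ (y : Aq R κ) * gs ω κ χ)]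
    have e3 : ‖∑ r ∈ (orderOf χ₀).divisors.filter (fun r => Nat.Coprime r M),
        ((ArithmeticFunction.moebius r : ℤ) : ℂ) *
        ∑ ψ ∈ Cf χ₀ (orderOf χ₀ / (r * M)), (χ₀ ^ (t r) * ψ) (y : Aq R κ) *
          gs ω κ (χ₀ ^ (t r) * ψ)‖ ≤
        ∑ r ∈ (orderOf χ₀).divisors.filter (fun r => Nat.Coprime r M),
          (Nat.card (Aq R κ)ˣ : ℝ) := by
      refine (norm_sum_le _ _).trans (Finset.sum_le_sum fun r hr => ?_)
      rw [Finset.mem_filter] at hr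
      rw [norm_mul]
      have h5 : ‖((ArithmeticFunction.moebius r : ℤ) : ℂ)‖ ≤ 1 := by
        rw [Complex.norm_intCast]
        exact_mod_cast ArithmeticFunction.abs_moebius_le_one
      have hrM : r * M ∣ orderOf χ₀ :=
        Nat.Coprime.mul_dvd_of_dvd_of_dvd hr.2 (Nat.dvd_of_mem_divisors hr.1) hMd
      let _ : Fintype (Aq R κ) := Fintype.ofFinite _
      have h6 := h4 (Aq R κ) χ₀ (orderOf χ₀ / (r * M)) (t r) (Nat.div_dvd_of_dvd hrM)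
        (fun x => ez ω (((Quotient.out x : R) : ℂ) / (κ : ℂ))) (fun x => (ez_norm _ _).le) y
      have h7 : ∀ χ : MulChar (Aq R κ) ℂ, gs ω κ χ =
          ∑ x : Aq R κ, χ x * ez ω (((Quotient.out x : R) : ℂ) / (κ : ℂ)) := by
        intro χ
        unfold gs
        rw [finsum_eq_sum_of_fintype]
      simp only [h7]
      calc _ ≤ 1 * (Nat.card (Aq R κ)ˣ : ℝ) := mul_le_mul h5 h6 (norm_nonneg _) zero_le_one
        _ = _ := one_mul _
    rw [Finset.sum_const, nsmul_eq_mul] at e3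
    have e4 : ((((orderOf χ₀).divisors.filter (fun r => Nat.Coprime r M)).card : ℕ) : ℝ) ≤
        (orderOf χ₀).divisors.card := by
      exact_mod_cast Finset.card_filter_le _ _
    have e3' := e3.trans (mul_le_mul_of_nonneg_right e4 (Nat.cast_nonneg (Nat.card (Aq R κ)ˣ)))
    rw [div_eq_mul_inv]
    exact mul_le_mul_of_nonneg_right e3' (by positivity)
  · have : ∑ χ ∈ Ef χ₀ M, ev χ β * ((starRingEnd ℂ) (ev χ α) *
        (ev χ φ * gs ω κ χ / (‖(κ : ℂ)‖ : ℂ))) = 0 := by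
      refine Finset.sum_eq_zero fun χ _ => ?_
      unfold ev
      by_cases h1 : IsUnit (Ideal.Quotient.mk (Ideal.span {κ}) β : Aq R κ)
      · by_cases h4 : IsUnit (Ideal.Quotient.mk (Ideal.span {κ}) φ : Aq R κ)
        · have h5 : ¬ IsUnit (Ideal.Quotient.mk (Ideal.span {κ}) α : Aq R κ) :=
            fun h5 => hu ⟨h1, h4, h5⟩
          rw [MulChar.map_nonunit χ h5, map_zero]
          ring
        · rw [MulChar.map_nonunit χ h4]
          ring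
      · rw [MulChar.map_nonunit χ h1]
        ring
    rw [this, norm_zero]
    exact hnn

/-! ## averaging -/

theorem avg {ι J : Type} (E : Finset ι) (u : ι → J → ℂ) (hu : ∀ χ α, ‖u χ α‖ ≤ 1) (b : J → ℂ)
    (hb : Summable (fun α => ‖b α‖)) (H : ι → ℂ) (K : ℝ)
    (hK : ∀ α, ‖∑ χ ∈ E, u χ α * H χ‖ ≤ K) :
    ‖∑ χ ∈ E, (∑' α, u χ α * b α) * H χ‖ ≤ K * ∑' α, ‖b α‖ := by
  have hs : ∀ χ, Summable (fun α => u χ α * b α) := by
    intro χ
    refine Summable.of_norm_bounded hb fun n => ?_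
    rw [norm_mul]
    exact mul_le_of_le_one_left (norm_nonneg _) (hu χ _)
  have e : ∑ χ ∈ E, (∑' α, u χ α * b α) * H χ = ∑' α, (∑ χ ∈ E, u χ α * H χ) * b α := by
    have e1 : ∀ α, (∑ χ ∈ E, u χ α * H χ) * b α = ∑ χ ∈ E, u χ α * b α * H χ := by
      intro α
      rw [Finset.sum_mul]
      refine Finset.sum_congr rfl fun χ _ => ?_
      ring
    rw [tsum_congr e1, Summable.tsum_finsetSum fun χ _ => (hs χ).mul_right _]
    refine Finset.sum_congr rfl fun χ _ => ?_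
    rw [tsum_mul_right]
  rw [e]
  refine tsum_of_norm_bounded (hb.hasSum.mul_left K) ?_
  intro α
  rw [norm_mul]
  exact mul_le_mul_of_nonneg_right (hK α) (norm_nonneg _)

/-! ## the coefficients -/

theorem gcoef {g : R → ℂ} (hg : Gd R g) (α : R) :
    ‖g α / (Complex.normSq (α : ℂ) : ℂ)‖ ≤ ‖(α : ℂ)‖ ^ (-1 : ℝ) := by
  by_cases h0 : (α : ℂ) = 0
  · have : α = 0 := Subtype.ext h0
    rw [this, hg.zero, zero_div, norm_zero]
    exact Real.rpow_nonneg (norm_nonneg _) _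
  · have hp : 0 < ‖(α : ℂ)‖ := norm_pos_iff.2 h0
    rw [norm_div, Complex.norm_real, Complex.normSq_eq_norm_sq, Real.norm_eq_abs,
      abs_of_pos (by positivity), Real.rpow_neg_one, div_le_iff₀ (by positivity)]
    calc ‖g α‖ ≤ ‖(α : ℂ)‖ := hg.le α
      _ = ‖(α : ℂ)‖⁻¹ * ‖(α : ℂ)‖ ^ 2 := by field_simp

theorem pow_le_of {x B s : ℝ} (hx : 0 < x) (hs : 0 ≤ s) (h : x ^ 2 ≤ B) :
    x ^ (-1 : ℝ) ≤ B ^ s * x ^ (-(1 + 2 * s)) := by
  have h1 : (x ^ 2) ^ s ≤ B ^ s := Real.rpow_le_rpow (by positivity) h hs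
  have h2 : (x ^ 2) ^ s = x ^ (2 * s) := by
    rw [← Real.rpow_natCast x 2, ← Real.rpow_mul hx.le]
    norm_num
  rw [h2] at h1
  calc x ^ (-1 : ℝ) = x ^ (2 * s) * x ^ (-(1 + 2 * s)) := by
        rw [← Real.rpow_add hx]; congr 1; ring
    _ ≤ _ := mul_le_mul_of_nonneg_right h1 (Real.rpow_nonneg hx.le _)

theorem exp_le_of {x Y s : ℝ} (hx : 0 < x) (hY : 0 < Y) (hs : 0 ≤ s) (hs1 : s ≤ 1) :
    x ^ (-1 : ℝ) * Real.exp (-(x ^ 2 / Y)) ≤ Y ^ s * x ^ (-(1 + 2 * s)) := by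
  have h0 : (0 : ℝ) < x ^ 2 / Y := by positivity
  have h1 : (x ^ 2 / Y) ^ s ≤ Real.exp (x ^ 2 / Y) := by
    rcases le_total (x ^ 2 / Y) 1 with h | h
    · exact (Real.rpow_le_one h0.le h hs).trans (Real.one_le_exp h0.le)
    · calc (x ^ 2 / Y) ^ s ≤ (x ^ 2 / Y) ^ (1 : ℝ) := Real.rpow_le_rpow_of_exponent_le h hs1
        _ = x ^ 2 / Y := Real.rpow_one _
        _ ≤ Real.exp (x ^ 2 / Y) := by
            have := Real.add_one_le_exp (x ^ 2 / Y); linarith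
  have h2 : (x ^ 2 / Y) ^ s * Real.exp (-(x ^ 2 / Y)) ≤ 1 := by
    calc _ ≤ Real.exp (x ^ 2 / Y) * Real.exp (-(x ^ 2 / Y)) :=
          mul_le_mul_of_nonneg_right h1 (Real.exp_pos _).le
      _ = 1 := by rw [← Real.exp_add, add_neg_cancel, Real.exp_zero]
  have h3 : (x ^ 2 / Y) ^ s = x ^ (2 * s) / Y ^ s := by
    rw [Real.div_rpow (by positivity) hY.le]
    congr 1
    rw [← Real.rpow_natCast x 2, ← Real.rpow_mul hx.le]
    norm_num
  rw [h3] at h2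
  have hYs : 0 < Y ^ s := Real.rpow_pos_of_pos hY s
  have h4 : x ^ (2 * s) * Real.exp (-(x ^ 2 / Y)) ≤ Y ^ s := by
    rw [div_mul_eq_mul_div, div_le_iff₀ hYs, one_mul] at h2
    exact h2
  calc x ^ (-1 : ℝ) * Real.exp (-(x ^ 2 / Y))
      = (x ^ (2 * s) * Real.exp (-(x ^ 2 / Y))) * x ^ (-(1 + 2 * s)) := by
        have : x ^ (-1 : ℝ) = x ^ (2 * s) * x ^ (-(1 + 2 * s)) := by
          rw [← Real.rpow_add hx]; congr 1; ring
        rw [this]; ring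
    _ ≤ _ := mul_le_mul_of_nonneg_right h4 (Real.rpow_nonneg hx.le _)

theorem one_div_le (n : ℕ) : ‖(1 / (n : ℂ))‖ ≤ 1 := by
  rw [norm_div, norm_one, Complex.norm_natCast]
  rcases Nat.eq_zero_or_pos n with h | h
  · rw [h]; norm_num
  · rw [div_le_one (by exact_mod_cast h)]
    exact_mod_cast h

theorem c_dualp (h0 : S_DIV) (h1 : C_BASIC) (_h2 : C_LAT) (h3 : C_MOB) (h4 : C_GAVG) :
    C_DUALP := by
  classical
  intro R ω hR m g hm hg c0 hc0 ε hε hε'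
  obtain ⟨-, -, -, -, hcard⟩ := h1 R ω hR
  obtain ⟨C1, hC1, hC, -⟩ := h0 (ε / 8) (by linarith)
  set s : ℝ := 1 / 2 + ε / 8 with hs
  have hs0 : 0 ≤ s := by rw [hs]; linarith
  have hs1 : s ≤ 1 := by rw [hs]; linarith
  have hsum : Summable (fun α : R => ‖(α : ℂ)‖ ^ (-(1 + 2 * s))) := summ hR (by rw [hs]; linarith)
  set S : ℝ := ∑' α : R, ‖(α : ℂ)‖ ^ (-(1 + 2 * s)) with hS
  have hS0 : 0 ≤ S := tsum_nonneg fun α => Real.rpow_nonneg (norm_nonneg _) _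
  refine ⟨ε / 2, C1 * c0 ^ s * S ^ 2 + 1, 0, by linarith, by positivity, ?_⟩
  intro κ φ _ hκ _ _ χ₀ hord M hM hMd
  obtain ⟨-, hcA⟩ := hcard κ hκ
  set N : ℝ := Complex.normSq (κ : ℂ) with hN
  have hN1 : 1 ≤ N := by
    rw [← hcA]
    exact_mod_cast Nat.card_pos
  have hN0 : 0 < N := by linarith
  have hκn : ‖(κ : ℂ)‖ = N ^ (1 / 2 : ℝ) := by
    rw [hN, Complex.normSq_eq_norm_sq, ← Real.sqrt_eq_rpow, Real.sqrt_sq (norm_nonneg _)]
  have hcU : (Nat.card (Aq R κ)ˣ : ℝ) ≤ N := by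
    rw [← hcA]
    exact_mod_cast Nat.card_le_card_of_injective _ Units.val_injective
  have hpow : orderOf χ₀ ∣ Nat.card (Aq R κ)ˣ := by
    let _ : Fintype (Aq R κ)ˣ := Fintype.ofFinite _
    rw [Nat.card_eq_fintype_card]
    exact orderOf_dvd_of_pow_eq_one χ₀.pow_card_eq_one
  have hd1 : 1 ≤ orderOf χ₀ := Nat.pos_of_dvd_of_pos hpow Nat.card_pos
  have hdN : (orderOf χ₀ : ℝ) ≤ N :=
    le_trans (by exact_mod_cast Nat.le_of_dvd Nat.card_pos hpow) hcU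
  have hτ : ((orderOf χ₀).divisors.card : ℝ) ≤ C1 * N ^ (ε / 8) := by
    refine (hC _ hd1).trans (mul_le_mul_of_nonneg_left ?_ hC1.le)
    exact Real.rpow_le_rpow (Nat.cast_nonneg _) hdN (by linarith)
  set K0 : ℝ := (orderOf χ₀).divisors.card * (Nat.card (Aq R κ)ˣ : ℝ) / ‖(κ : ℂ)‖ with hK0
  have hK0' : K0 ≤ C1 * N ^ (1 / 2 + ε / 8) := by
    rw [hK0, hκn, div_le_iff₀ (Real.rpow_pos_of_pos hN0 _)]
    calc ((orderOf χ₀).divisors.card : ℝ) * (Nat.card (Aq R κ)ˣ : ℝ)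
        ≤ (C1 * N ^ (ε / 8)) * N := mul_le_mul hτ hcU (Nat.cast_nonneg _) (by positivity)
      _ = C1 * (N ^ (ε / 8) * N ^ (1 : ℝ)) := by rw [Real.rpow_one]; ring
      _ = C1 * N ^ (1 / 2 + ε / 8) * N ^ (1 / 2 : ℝ) := by
          rw [mul_assoc, ← Real.rpow_add hN0, ← Real.rpow_add hN0]
          congr 2
          ring
  have hK00 : 0 ≤ K0 := by rw [hK0]; positivity
  set B : ℝ := N ^ (ε / 2) with hB
  set Y : ℝ := c0 * N ^ (1 / 3 : ℝ) with hY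
  have hY0 : 0 < Y := by rw [hY]; positivity
  -- coefficients
  set b : R → ℂ := fun β => if Complex.normSq (β : ℂ) ≤ B then
    ((m β : ℂ) * g β) / (Complex.normSq (β : ℂ) : ℂ) else 0 with hb
  set a : R → ℂ := fun α => (starRingEnd ℂ) (g α / (Complex.normSq (α : ℂ) : ℂ) *
    (Real.exp (-(Complex.normSq (α : ℂ) / Y)) : ℂ)) with ha
  have hbb : ∀ β, ‖b β‖ ≤ B ^ s * ‖(β : ℂ)‖ ^ (-(1 + 2 * s)) := by
    intro β
    have hnn : 0 ≤ B ^ s * ‖(β : ℂ)‖ ^ (-(1 + 2 * s)) := by positivity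
    rw [hb]
    show ‖if Complex.normSq (β : ℂ) ≤ B then
      ((m β : ℂ) * g β) / (Complex.normSq (β : ℂ) : ℂ) else 0‖ ≤ _
    split_ifs with h
    · by_cases h0 : (β : ℂ) = 0
      · rw [h0] at hnn ⊢
        rw [map_zero, Complex.ofReal_zero, div_zero]
        exact norm_zero.trans_le hnn
      · have hp : 0 < ‖(β : ℂ)‖ := norm_pos_iff.2 h0
        rw [mul_div_assoc, norm_mul, Complex.norm_real, Real.norm_eq_abs]
        calc _ ≤ 1 * ‖(β : ℂ)‖ ^ (-1 : ℝ) :=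
              mul_le_mul (hm.le β) (gcoef hg β) (norm_nonneg _) zero_le_one
          _ = ‖(β : ℂ)‖ ^ (-1 : ℝ) := one_mul _
          _ ≤ _ := pow_le_of hp hs0 (by rw [← Complex.normSq_eq_norm_sq]; exact h)
    · rw [norm_zero]; exact hnn
  have hab : ∀ α, ‖a α‖ ≤ Y ^ s * ‖(α : ℂ)‖ ^ (-(1 + 2 * s)) := by
    intro α
    have hnn : 0 ≤ Y ^ s * ‖(α : ℂ)‖ ^ (-(1 + 2 * s)) := by positivity
    rw [ha]
    show ‖(starRingEnd ℂ) (g α / (Complex.normSq (α : ℂ) : ℂ) *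
      (Real.exp (-(Complex.normSq (α : ℂ) / Y)) : ℂ))‖ ≤ _
    rw [RCLike.norm_conj, norm_mul, Complex.norm_real, Real.norm_eq_abs,
      abs_of_pos (Real.exp_pos _)]
    by_cases h0 : (α : ℂ) = 0
    · have : α = 0 := Subtype.ext h0
      rw [this, hg.zero, zero_div, norm_zero, zero_mul]
      rw [this] at hnn
      exact hnn
    · have hp : 0 < ‖(α : ℂ)‖ := norm_pos_iff.2 h0
      refine (mul_le_mul_of_nonneg_right (gcoef hg α) (Real.exp_pos _).le).trans ?_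
      rw [Complex.normSq_eq_norm_sq]
      exact exp_le_of hp hY0 hs0 hs1
  have hbs : Summable (fun β => ‖b β‖) :=
    Summable.of_nonneg_of_le (fun _ => norm_nonneg _) hbb (hsum.mul_left _)
  have has : Summable (fun α => ‖a α‖) :=
    Summable.of_nonneg_of_le (fun _ => norm_nonneg _) hab (hsum.mul_left _)
  have hbt : ∑' β, ‖b β‖ ≤ B ^ s * S := by
    rw [hS, ← tsum_mul_left]
    exact hbs.tsum_le_tsum hbb (hsum.mul_left _)
  have hat : ∑' α, ‖a α‖ ≤ Y ^ s * S := by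
    rw [hS, ← tsum_mul_left]
    exact has.tsum_le_tsum hab (hsum.mul_left _)
  -- rewriting
  have emol : ∀ χ : MulChar (Aq R κ) ℂ, mol m g B χ = (1 / (nu R : ℂ)) * ∑' β : R, ev χ β * b β := by
    intro χ
    unfold mol
    congr 1
    refine tsum_congr fun β => ?_
    rw [hb]
    show (if Complex.normSq (β : ℂ) ≤ B then
      ev χ β * ((m β : ℂ) * g β) / (Complex.normSq (β : ℂ) : ℂ) else 0) = ev χ β *
      (if Complex.normSq (β : ℂ) ≤ B then ((m β : ℂ) * g β) / (Complex.normSq (β : ℂ) : ℂ) else 0)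
    split_ifs
    · rw [mul_div_assoc]
    · rw [mul_zero]
  have esmo : ∀ χ : MulChar (Aq R κ) ℂ, (starRingEnd ℂ) (smo g Y χ) =
      (1 / (nu R : ℂ)) * ∑' α : R, (starRingEnd ℂ) (ev χ α) * a α := by
    intro χ
    unfold smo
    rw [map_mul, Complex.conj_tsum, map_div₀, map_one, map_natCast]
    congr 1
    refine tsum_congr fun α => ?_
    rw [ha]
    show _ = (starRingEnd ℂ) (ev χ α) * (starRingEnd ℂ) (g α / (Complex.normSq (α : ℂ) : ℂ) *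
      (Real.exp (-(Complex.normSq (α : ℂ) / Y)) : ℂ))
    rw [← map_mul]
    congr 1
    ring
  have etot : ∑ χ ∈ Ef χ₀ M, mol m g B χ * (ev χ φ * gs ω κ χ / (‖(κ : ℂ)‖ : ℂ)) *
      (starRingEnd ℂ) (smo g Y χ) = (1 / (nu R : ℂ)) * ((1 / (nu R : ℂ)) *
      ∑ χ ∈ Ef χ₀ M, (∑' β : R, ev χ β * b β) * ((ev χ φ * gs ω κ χ / (‖(κ : ℂ)‖ : ℂ)) *
        ∑' α : R, (starRingEnd ℂ) (ev χ α) * a α)) := by
    rw [Finset.mul_sum, Finset.mul_sum]
    refine Finset.sum_congr rfl fun χ _ => ?_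
    rw [emol, esmo]
    ring
  have hin : ∀ β : R, ‖∑ χ ∈ Ef χ₀ M, ev χ β * ((ev χ φ * gs ω κ χ / (‖(κ : ℂ)‖ : ℂ)) *
        ∑' α : R, (starRingEnd ℂ) (ev χ α) * a α)‖ ≤ K0 * ∑' α, ‖a α‖ := by
    intro β
    have e : ∑ χ ∈ Ef χ₀ M, ev χ β * ((ev χ φ * gs ω κ χ / (‖(κ : ℂ)‖ : ℂ)) *
        ∑' α : R, (starRingEnd ℂ) (ev χ α) * a α) = ∑ χ ∈ Ef χ₀ M,
        (∑' α : R, (starRingEnd ℂ) (ev χ α) * a α) *
          (ev χ β * (ev χ φ * gs ω κ χ / (‖(κ : ℂ)‖ : ℂ))) := by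
      refine Finset.sum_congr rfl fun χ _ => ?_
      ring
    rw [e]
    refine avg (Ef χ₀ M) (fun χ α => (starRingEnd ℂ) (ev χ α)) (fun χ α => ?_) a has _ K0
      (fun α => ?_)
    · rw [RCLike.norm_conj]; exact ev_norm χ α
    · have e2 : ∑ χ ∈ Ef χ₀ M, (starRingEnd ℂ) (ev χ α) *
          (ev χ β * (ev χ φ * gs ω κ χ / (‖(κ : ℂ)‖ : ℂ))) = ∑ χ ∈ Ef χ₀ M, ev χ β *
          ((starRingEnd ℂ) (ev χ α) * (ev χ φ * gs ω κ χ / (‖(κ : ℂ)‖ : ℂ))) := by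
        refine Finset.sum_congr rfl fun χ _ => ?_
        ring
      rw [e2]
      exact key h3 h4 ω χ₀ M hM hMd φ β α
  have hout := avg (Ef χ₀ M) (fun χ β => ev χ β) (fun χ β => ev_norm χ β) b hbs
    (fun χ => (ev χ φ * gs ω κ χ / (‖(κ : ℂ)‖ : ℂ)) *
        ∑' α : R, (starRingEnd ℂ) (ev χ α) * a α) (K0 * ∑' α, ‖a α‖) hin
  have hfin : ‖∑ χ ∈ Ef χ₀ M, (∑' β : R, ev χ β * b β) *
      ((ev χ φ * gs ω κ χ / (‖(κ : ℂ)‖ : ℂ)) *
        ∑' α : R, (starRingEnd ℂ) (ev χ α) * a α)‖ ≤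
      (C1 * c0 ^ s * S ^ 2) * N ^ (2 / 3 + ε / 2) := by
    refine hout.trans ?_
    have hA0 : 0 ≤ ∑' α, ‖a α‖ := tsum_nonneg fun _ => norm_nonneg _
    have hB0 : 0 ≤ ∑' β, ‖b β‖ := tsum_nonneg fun _ => norm_nonneg _
    calc K0 * (∑' α, ‖a α‖) * ∑' β, ‖b β‖
        ≤ (C1 * N ^ (1 / 2 + ε / 8)) * (Y ^ s * S) * (B ^ s * S) := by
          gcongr
      _ = C1 * c0 ^ s * S ^ 2 * (N ^ (1 / 2 + ε / 8) * N ^ (1 / 3 * s) * N ^ (ε / 2 * s)) := by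
          rw [hY, hB, Real.mul_rpow hc0.le (by positivity), ← Real.rpow_mul hN0.le,
            ← Real.rpow_mul hN0.le]
          ring
      _ = C1 * c0 ^ s * S ^ 2 * N ^ (1 / 2 + ε / 8 + 1 / 3 * s + ε / 2 * s) := by
          rw [← Real.rpow_add hN0, ← Real.rpow_add hN0]
      _ ≤ _ := by
          refine mul_le_mul_of_nonneg_left ?_ (by positivity)
          refine Real.rpow_le_rpow_of_exponent_le hN1 ?_
          rw [hs]
          nlinarith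
  have hfin2 : (C1 * c0 ^ s * S ^ 2) * N ^ (2 / 3 + ε / 2) ≤
      (C1 * c0 ^ s * S ^ 2 + 1) * orderOf χ₀ * N ^ (-(ε / 2)) := by
    calc (C1 * c0 ^ s * S ^ 2) * N ^ (2 / 3 + ε / 2)
        = (C1 * c0 ^ s * S ^ 2) * (N ^ (2 / 3 + ε) * N ^ (-(ε / 2))) := by
          rw [← Real.rpow_add hN0]
          congr 2
          ring
      _ ≤ (C1 * c0 ^ s * S ^ 2 + 1) * (orderOf χ₀ * N ^ (-(ε / 2))) := by
          gcongr
          linarith
      _ = _ := by ring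
  rw [etot, norm_mul, norm_mul]
  calc ‖(1 / (nu R : ℂ))‖ * (‖(1 / (nu R : ℂ))‖ * _) ≤ 1 * (1 * _) := by
        refine mul_le_mul (one_div_le _) (mul_le_mul_of_nonneg_right (one_div_le _)
          (norm_nonneg _)) (by positivity) zero_le_one
    _ = _ := by rw [one_mul, one_mul]
    _ ≤ _ := hfin.trans hfin2

end Pool.Agent.W822.CM.Dualp
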